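import Pool.Agent.Helper65.HCS.Goals
import Pool.Agent.Helper81.Sus2.DEC
import Pool.Agent.Helper78.Gen2.Main
import Pool.Agent.Helper28.Few.Main

/-!
# Circuits of unbounded size: final assembly
-/

namespace Pool.Agent.Helper94.HCS

open Pool.Agent.Helper65.LinSpace Pool.Agent.Helper78.Mpc Pool.Agent.Helper28.Ram Finset Filter
open Pool.Agent.Helper65.HC Pool.Agent.Helper65.HCS
open Pool.Agent.Helper65.RT (qT)
open Pool.Agent.Helper28.Long (ZL)
open Pool.Agent.Helper81.Sus2 (Decomp CodE)
open Pool.Agent.Helper31.SusD (itr itr_sound itr_complete)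

/-- The first configuration. -/
theorem rep_one (A : Circ) (w y : List Bool) (P : Pool.Agent.Helper65.HCS.Prm) (r : ℕ) :
    Rep A w y P r 1 0 := by
  have hct : P.ct 1 = 0 := by
    unfold Pool.Agent.Helper65.HCS.Prm.ct
    rw [Nat.sub_self, Nat.zero_mod]
  refine ⟨one_ne_zero, hct, fun i _ _ _ => ?_, fun i _ _ _ => ?_⟩
  · show (([] : List Bool)).length ≤ P.S
    exact Nat.zero_le _
  · unfold Pool.Agent.Helper65.HCS.Prm.pre
    rw [hct, ifz_zero]
    rfl

/-- Every circuit with a decompressor has a code. -/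
theorem exists_good (hW : WIN_stmt) (hC : CODE_stmt) (hK : CHK_stmt)
    (hP : Pool.Agent.Helper65.HCS.PAR_stmt) (c : ℕ)
    (A : Circ) (E : Decomp) (C : ℝ) : ∃ e n₀ : ℕ, ∀ w y : List Bool, n₀ ≤ w.length →
    (∀ T < Pool.Agent.Helper65.HCS.NF (num w),
      Pool.Agent.Helper65.HCS.accF c e (num w) (num y) T ≠ 0 → ∃ r, A.AcceptsAt w y r) ∧
    (Within A E c C w y → ∃ T < Pool.Agent.Helper65.HCS.NF (num w),
      Pool.Agent.Helper65.HCS.accF c e (num w) (num y) T ≠ 0) := by
  obtain ⟨eS, eO, c₁, hA⟩ := hW A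
  obtain ⟨eD, eX, c₂, hE⟩ := hC E
  obtain ⟨n₀, hn₀⟩ := eventually_atTop.1 (hP.2 (c₁ + c₂))
  obtain ⟨n₁, hn₁⟩ := eventually_atTop.1 (hP.1 C)
  refine ⟨Nat.pair (Nat.pair eS eO) (Nat.pair eD eX), n₀ + n₁, fun w y hw => ?_⟩
  set e := Nat.pair (Nat.pair eS eO) (Nat.pair eD eX) with he
  have hlog : Nat.log 2 (num w) = w.length := Pool.Agent.Helper65.LinSpace.log_num w
  have hNF : Pool.Agent.Helper65.HCS.NF (num w) = (w.length + 2) * (w.length + 2) := by
    unfold Pool.Agent.Helper65.HCS.NF
    rw [hlog]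
  have hq0 : 0 < qT w.length := Nat.succ_pos _
  -- the parameters
  have pS : ∀ T, (Pool.Agent.Helper65.HCS.prm c e (num w) (num y) T).S =
      Pool.Agent.Helper65.HCS.sT w.length T := fun T => by
    show Pool.Agent.Helper65.HCS.sT (Nat.log 2 (num w)) T = _
    rw [hlog]
  have pZ : ∀ T, (Pool.Agent.Helper65.HCS.prm c e (num w) (num y) T).Z =
      Pool.Agent.Helper65.HCS.aT w.length T := fun T => by
    show Pool.Agent.Helper65.HCS.aT (Nat.log 2 (num w)) T = _
    rw [hlog]
  have pb : ∀ T, (Pool.Agent.Helper65.HCS.prm c e (num w) (num y) T).b =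
      Pool.Agent.Helper65.HCS.aT w.length T := fun T => by
    show Pool.Agent.Helper65.HCS.aT (Nat.log 2 (num w)) T = _
    rw [hlog]
  have pz : ∀ T, (Pool.Agent.Helper65.HCS.prm c e (num w) (num y) T).z = c * w.length :=
    fun T => by
    show c * Nat.log 2 (num w) = _
    rw [hlog]
  have pΛ : ∀ T, (Pool.Agent.Helper65.HCS.prm c e (num w) (num y) T).Λ = LW w.length :=
    fun T => by
    show LW (Nat.log 2 (num w)) = _
    rw [hlog]
  have pβ : ∀ T, (Pool.Agent.Helper65.HCS.prm c e (num w) (num y) T).β =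
      2 ^ (2 * ll w.length) := fun T => by
    show 2 ^ (2 * ll (Nat.log 2 (num w))) = _
    rw [hlog]
  have pB : ∀ T, (Pool.Agent.Helper65.HCS.prm c e (num w) (num y) T).B =
      qT w.length / (Pool.Agent.Helper65.HCS.sT w.length T + 1) := fun T => by
    show qT (Nat.log 2 (num w)) / (Pool.Agent.Helper65.HCS.sT (Nat.log 2 (num w)) T + 1) = _
    rw [hlog]
  have pK : ∀ T, (Pool.Agent.Helper65.HCS.prm c e (num w) (num y) T).K = qT w.length :=
    fun T => by
    show qT (Nat.log 2 (num w)) = _
    rw [hlog]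
  have peS : ∀ T, (Pool.Agent.Helper65.HCS.prm c e (num w) (num y) T).eS = eS := fun T => by
    show (Nat.unpair (Nat.unpair e).1).1 = eS
    simp [he]
  have peO : ∀ T, (Pool.Agent.Helper65.HCS.prm c e (num w) (num y) T).eO = eO := fun T => by
    show (Nat.unpair (Nat.unpair e).1).2 = eO
    simp [he]
  have peD : ∀ T, (Pool.Agent.Helper65.HCS.prm c e (num w) (num y) T).eD = eD := fun T => by
    show (Nat.unpair (Nat.unpair e).2).1 = eD
    simp [he]
  have peX : ∀ T, (Pool.Agent.Helper65.HCS.prm c e (num w) (num y) T).eX = eX := fun T => by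
    show (Nat.unpair (Nat.unpair e).2).2 = eX
    simp [he]
  have hBpos : ∀ T, 0 < (Pool.Agent.Helper65.HCS.prm c e (num w) (num y) T).B := fun T => by
    rw [pB]
    have h1 : Pool.Agent.Helper65.HCS.sT w.length T ≤ qT w.length - 1 :=
      (min_le_right _ _).trans (min_le_left _ _)
    exact Nat.div_pos (by omega) (Nat.succ_pos _)
  -- the windows are right, and the decompressor has a code
  have hR : ∀ T r, r < 2 ^ (Pool.Agent.Helper65.HCS.prm c e (num w) (num y) T).b →
      Right A w y (Pool.Agent.Helper65.HCS.prm c e (num w) (num y) T) r := by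
    intro T r hr
    have hS : Pool.Agent.Helper65.HCS.sT w.length T ≤ ZL w.length :=
      (min_le_right _ _).trans (min_le_right _ _)
    have hb : Pool.Agent.Helper65.HCS.aT w.length T ≤ ZL w.length := min_le_right _ _
    obtain ⟨h1, h2, -, -, h5⟩ := hn₀ w.length (by omega) _ hS _ hb
    have h6 : w.length < 2 ^ (Pool.Agent.Helper65.HCS.aT w.length T + ll w.length) := by
      have h7 : w.length < 2 ^ ll w.length := by
        unfold ll
        exact Nat.lt_pow_succ_log_self (by norm_num) _
      exact lt_of_lt_of_le h7 (Nat.pow_le_pow_right (by norm_num) (Nat.le_add_left _ _))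
    refine hA w y _ (Pool.Agent.Helper65.HCS.aT w.length T + ll w.length) r (peS T) (peO T) rfl
      rfl h6 ?_ ?_ ?_ ?_
    · rw [pb] at hr
      exact lt_of_lt_of_le hr (Nat.pow_le_pow_right (by norm_num) (Nat.le_add_right _ _))
    · rw [pS, pΛ]
      exact le_trans (Nat.mul_le_mul_right _ (Nat.le_add_right c₁ c₂)) h1
    · rw [pS, pΛ, pβ]
      omega
    · rw [pS]
      exact (h5 (num w) hlog).1
  have hD : ∀ T, CodE E (Pool.Agent.Helper65.HCS.prm c e (num w) (num y) T).dc := by
    intro T
    have hS : Pool.Agent.Helper65.HCS.sT w.length T ≤ ZL w.length :=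
      (min_le_right _ _).trans (min_le_right _ _)
    have hb : Pool.Agent.Helper65.HCS.aT w.length T ≤ ZL w.length := min_le_right _ _
    obtain ⟨-, -, h3, h4, h5⟩ := hn₀ w.length (by omega) _ hS _ hb
    refine hE _ (peD T) (peX T) ?_ ?_ ?_
    · rw [pZ, pΛ]
      exact le_trans (Nat.mul_le_mul_right _ (Nat.le_add_left c₂ c₁)) h3
    · rw [pZ, pΛ, pβ]
      omega
    · rw [pZ]
      exact (h5 (num w) hlog).2
  constructor
  · intro T _ hne
    unfold Pool.Agent.Helper65.HCS.accF at hne
    obtain ⟨r, hr, h1⟩ := exists_ne_zero_of_sum_ne_zero hne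
    rw [mem_range] at hr
    unfold Pool.Agent.Helper65.HCS.Prm.acc at h1
    obtain ⟨j, -, h2⟩ := exists_ne_zero_of_sum_ne_zero h1
    obtain ⟨τ, hτ, h3⟩ := exists_ne_zero_of_sum_ne_zero h2
    rw [mem_range] at hτ
    obtain ⟨k1, k2, -⟩ := hK A w y _ r (hR T r hr) rfl rfl (hBpos T) hr
    refine ⟨r, ?_⟩
    rcases itr_sound (R := Rep A w y (Pool.Agent.Helper65.HCS.prm c e (num w) (num y) T) r)
      (rep_one A w y _ r) (fun c t τ d h1 h2 h3 => (k1 c t τ d h1 h2 h3).1) j with h4 | ⟨t, h4⟩
    · exfalso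
      apply h3
      rw [h4]
      unfold Pool.Agent.Helper65.HCS.Prm.ac
      rw [lt01, if_neg (lt_irrefl 0), zero_mul]
    · exact k2 _ t τ h4 hτ h3
  · rintro ⟨r, s, a, x, hacc, hfit, hra, hgap, b1, b2, b3⟩
    have hs : 1 ≤ s := by
      have h1 := (hfit r le_rfl).1
      have h2 : A.val w y r ≠ [] := by
        intro h
        unfold Circ.AcceptsAt at hacc
        rw [h] at hacc
        simp at hacc
      have h3 : 0 < (A.val w y r).length := List.length_pos_iff.2 h2
      omega
    obtain ⟨h1, h2, h3, h4, h5, h6⟩ := hn₁ w.length (by omega) x s a hs b1 b2 b3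
    set T := s + (w.length + 2) * a with hT
    have e1 : Pool.Agent.Helper65.HCS.sT w.length T = s := by
      unfold Pool.Agent.Helper65.HCS.sT
      have h7 : dig (w.length + 2) T 0 = s := by
        unfold dig
        rw [pow_zero, Nat.div_one, hT, Nat.add_mul_mod_self_left, Nat.mod_eq_of_lt h4]
      rw [h7]
      exact min_eq_left (le_min h1 h2)
    have e2 : Pool.Agent.Helper65.HCS.aT w.length T = a := by
      unfold Pool.Agent.Helper65.HCS.aT
      have h7 : dig (w.length + 2) T 1 = a := by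
        unfold dig
        rw [pow_one, hT, Nat.add_mul_div_left _ _ (Nat.succ_pos _), Nat.div_eq_of_lt h4,
          zero_add, Nat.mod_eq_of_lt h5]
      rw [h7]
      exact min_eq_left h3
    have eN : (Pool.Agent.Helper65.HCS.prm c e (num w) (num y) T).N =
        qT w.length * (qT w.length / (s + 1)) := by
      unfold Pool.Agent.Helper65.HCS.Prm.N
      rw [pK, pB, e1]
    have hrb : r < 2 ^ (Pool.Agent.Helper65.HCS.prm c e (num w) (num y) T).b := by
      rw [pb, e2]
      exact hra
    obtain ⟨k1, -, k3⟩ := hK A w y _ r (hR T r hrb) rfl rfl (hBpos T) hrb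
    have hfit' : A.Fits w y r (Pool.Agent.Helper65.HCS.prm c e (num w) (num y) T).S := by
      rw [pS, e1]
      exact hfit
    have hsays : ∀ D i v : List Bool,
        E.Says w y (Pool.Agent.Helper65.HCS.prm c e (num w) (num y) T).Z D i v →
        (Pool.Agent.Helper65.HCS.prm c e (num w) (num y) T).dc.lk (num D) (num i) = num v :=
      fun D i v h => (Pool.Agent.Helper81.Sus2.dec E w y _ (hD T) rfl rfl D i v).1 h
    refine ⟨T, ?_, ?_⟩
    · rw [hNF, hT]
      calc s + (w.length + 2) * a < (w.length + 2) + (w.length + 2) * a := by omega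
        _ = (w.length + 2) * (a + 1) := by ring
        _ ≤ _ := Nat.mul_le_mul_left _ (by omega)
    · have hcz : 1 < (Pool.Agent.Helper65.HCS.prm c e (num w) (num y) T).cz := by
        unfold Pool.Agent.Helper65.HCS.Prm.cz
        have : 0 < 2 ^ (Pool.Agent.Helper65.HCS.prm c e (num w) (num y) T).b *
            2 ^ ((Pool.Agent.Helper65.HCS.prm c e (num w) (num y) T).z + 1) := by positivity
        omega
      obtain ⟨j, hj, -, τ, hτ, hac⟩ := itr_complete
        (chk := (Pool.Agent.Helper65.HCS.prm c e (num w) (num y) T).chk r)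
        (ac := (Pool.Agent.Helper65.HCS.prm c e (num w) (num y) T).ac r)
        (N := (Pool.Agent.Helper65.HCS.prm c e (num w) (num y) T).N)
        (Z := (Pool.Agent.Helper65.HCS.prm c e (num w) (num y) T).cz) (r := r)
        (R := Rep A w y (Pool.Agent.Helper65.HCS.prm c e (num w) (num y) T) r) hcz
        (rep_one A w y _ r) (fun c t h => h.ne) k1 (fun c' t hrep htr => by
          obtain ⟨l1, l2⟩ := k3 hfit' hacc c' t hrep
          rcases Nat.lt_or_ge r (t +
            (Pool.Agent.Helper65.HCS.prm c e (num w) (num y) T).N) with h7 | h7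
          · left
            exact ⟨r - t, by omega, l1 (r - t) (by omega) (by omega)⟩
          · right
            have h8 : ∃ u, t < u ∧ u < t + (Pool.Agent.Helper65.HCS.prm c e (num w) (num y) T).N ∧
                Short A E w y a (c * w.length) r u := by
              by_contra hcon
              push Not at hcon
              have h9 := hgap t (t + (Pool.Agent.Helper65.HCS.prm c e (num w) (num y) T).N)
                (Nat.le_add_right _ _) h7 hcon
              rw [eN] at h9
              omega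
            obtain ⟨u, hu1, hu2, hu3⟩ := h8
            obtain ⟨d, hd, hchk⟩ := l2 E u hsays hu1 (by omega) hu2
              (by rw [pZ, pz, e2]; exact hu3)
            exact ⟨u - t, by omega, d, hd, by omega, hchk⟩)
      have hin : (Pool.Agent.Helper65.HCS.prm c e (num w) (num y) T).acc r ≠ 0 := by
        unfold Pool.Agent.Helper65.HCS.Prm.acc
        intro h0
        rw [sum_eq_zero_iff] at h0
        have h10 := h0 j (mem_range.2 hj)
        rw [sum_eq_zero_iff] at h10
        exact hac (h10 τ (mem_range.2 hτ))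
      unfold Pool.Agent.Helper65.HCS.accF
      intro h0
      rw [sum_eq_zero_iff] at h0
      exact hin (h0 r (mem_range.2 hrb))

theorem fin (hW : WIN_stmt) (hC : CODE_stmt) (hK : CHK_stmt) (hL : LSK_stmt)
    (hP : Pool.Agent.Helper65.HCS.PAR_stmt) :
    Pool.Agent.Helper65.HCS.FIN_stmt := by
  intro c
  refine ⟨fun A E L C h1 h2 => ?_, ?_⟩
  · exact Pool.Agent.Helper78.Gen2.alt_lin (Pool.Agent.Helper65.HCS.accF c)
      Pool.Agent.Helper65.HCS.NF (hL c).1 (hL c).2 c L
      (fun w y => ∃ r, A.AcceptsAt w y r) (Within A E c C) (exists_good hW hC hK hP c A E C)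
      (fun w h => h1 w ((Pool.Agent.Helper28.Few.alt_iff _ _ _).1 h))
      (fun w hw => (Pool.Agent.Helper28.Few.alt_iff _ _ _).2 (h2 w hw))
  · obtain ⟨L, s, h1, h2, h3, h4⟩ := Pool.Agent.Helper78.Gen2.alt_main
      (Pool.Agent.Helper65.HCS.accF c) Pool.Agent.Helper65.HCS.NF (hL c).1 (hL c).2 c
    refine ⟨L, s, h1, h2, h3, fun A E C => ?_⟩
    have h := h4 (fun w y => ∃ r, A.AcceptsAt w y r) (Within A E c C)
      (exists_good hW hC hK hP c A E C)
    simp only [Pool.Agent.Helper28.Few.alt_iff] at h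
    exact h

end Pool.Agent.Helper94.HCS
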